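import Pool.Agent.H10R3.SC.Stmts3
import Pool.Agent.H444.FA.ExtL

set_option autoImplicit false
set_option linter.unusedSectionVars false

/-!
Project H10-CX, part 9: reading off the patterns.
-/

open Finset

namespace Pool.Agent.H469R10.CX

open Pool.Agent.Helper347.Sab
open Pool.Agent.H444.FA
open Pool.Agent.H10R3.SC

theorem inl_mem_newD {V E : Type} [Fintype V] [DecidableEq V] [Fintype E] [DecidableEq E]
    (G : MGraph V E) (C : Finset E) (X : Finset V) {b : ℕ} (T : Finset (Fin b)) (e : E) :
    (Sum.inl e : E ⊕ Fin b) ∈ newD G C X T ↔ e ∈ C ∧ e ∈ ins G univ X := by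
  simp [newD, inE]

theorem inr_mem_newD {V E : Type} [Fintype V] [DecidableEq V] [Fintype E] [DecidableEq E]
    (G : MGraph V E) (C : Finset E) (X : Finset V) {b : ℕ} (T : Finset (Fin b)) (k : Fin b) :
    (Sum.inr k : E ⊕ Fin b) ∈ newD G C X T ↔ k ∈ T := by
  simp [newD, inE]

theorem read : TRead := by
  intro V E _ _ _ _ G C X d y x ℓ hCr a b g hg' hg T hGood
  obtain ⟨n, W, hsub, hcov, hev⟩ := hGood
  refine ⟨n, fun c => oldP (W c), fun k => univ.filter fun c => Sum.inr k ∈ W c,
    ⟨?_, ?_, ?_⟩, ?_, ?_, ?_⟩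
  · intro c e he
    rw [mem_oldP] at he
    exact (inl_mem_inG _ _).1 (hsub c he)
  · intro e he
    have h1 := hcov (Sum.inl e) ((inl_mem_inG _ _).2 he)
    have h2 : (univ.filter fun c => e ∈ oldP (W c)) =
        (univ.filter fun c => (Sum.inl e : E ⊕ Fin b) ∈ W c) := by
      ext c
      simp [mem_oldP]
    rw [h2, h1]
    unfold mS
    by_cases hC : e ∈ C
    · rw [if_pos hC, if_pos ((inl_mem_newD G C X T e).2 ⟨hC, he⟩)]
    · rw [if_neg hC, if_neg (fun h => hC ((inl_mem_newD G C X T e).1 h).1)]
  · intro c v hv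
    have h1 := hev c (Sum.inl v)
    rw [dg_old] at h1
    have h2 : (univ.filter fun j : Fin b => Sum.inr j ∈ W c ∧ (Sum.inl v : V ⊕ Fin a) ∈ g j) = ∅ := by
      rw [filter_eq_empty_iff]
      rintro j _ ⟨_, h⟩
      obtain ⟨i, hi⟩ := hg'.old j v h
      exact hv i hi
    rw [h2, card_empty, add_zero] at h1
    exact h1
  · intro k
    have h1 := hcov (Sum.inr k) (inr_mem_inG _ _)
    show (univ.filter fun c => (Sum.inr k : E ⊕ Fin b) ∈ W c).card = _
    rw [h1]
    unfold mS
    by_cases hT : k ∈ T
    · rw [if_pos hT, if_pos ((inr_mem_newD G C X T k).2 hT)]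
    · rw [if_neg hT, if_neg (fun h => hT ((inr_mem_newD G C X T k).1 h))]
  · intro j k hk
    ext c
    unfold pat
    simp only [mem_filter, mem_univ, true_and]
    have h1 := hev c (Sum.inl (y j))
    rw [dg_old] at h1
    have hleg := hg'.leg j
    obtain ⟨k0, hk0⟩ := card_eq_one.1 hleg
    have hkk : k = k0 := by
      have : k ∈ (univ.filter fun k => (Sum.inl (y j) : V ⊕ Fin a) ∈ g k) := by
        simp [hk]
      rw [hk0] at this
      exact mem_singleton.1 this
    subst hkk
    have h3 : ∀ k', (Sum.inl (y j) : V ⊕ Fin a) ∈ g k' → k' = k := by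
      intro k' hk'
      have : k' ∈ (univ.filter fun k => (Sum.inl (y j) : V ⊕ Fin a) ∈ g k) := by
        simp [hk']
      rw [hk0] at this
      exact mem_singleton.1 this
    by_cases hW : (Sum.inr k : E ⊕ Fin b) ∈ W c
    · have h2 : (univ.filter fun j' : Fin b => Sum.inr j' ∈ W c ∧
          (Sum.inl (y j) : V ⊕ Fin a) ∈ g j') = {k} := by
        ext k'
        simp only [mem_filter, mem_univ, true_and, mem_singleton]
        constructor
        · rintro ⟨_, h⟩
          exact h3 k' h
        · rintro rfl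
          exact ⟨hW, hk⟩
      rw [h2, card_singleton] at h1
      constructor
      · intro _
        exact hW
      · intro _
        rw [← Nat.not_even_iff_odd]
        intro h
        have := h1
        rw [Nat.even_add_one] at this
        exact this h
    · have h2 : (univ.filter fun j' : Fin b => Sum.inr j' ∈ W c ∧
          (Sum.inl (y j) : V ⊕ Fin a) ∈ g j') = ∅ := by
        rw [filter_eq_empty_iff]
        rintro k' _ ⟨hh, h⟩
        rw [h3 k' h] at hh
        exact hW hh
      rw [h2, card_empty, add_zero] at h1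
      constructor
      · intro h
        exact absurd h (Nat.not_odd_iff_even.2 h1)
      · intro h
        exact absurd h hW
  · intro w c
    have h1 := hev c (Sum.inr w)
    rw [dg_new] at h1
    have h2 : (univ.filter fun k => (Sum.inr w : V ⊕ Fin a) ∈ g k ∧
        c ∈ (univ.filter fun c => (Sum.inr k : E ⊕ Fin b) ∈ W c)) =
        (univ.filter fun j : Fin b => Sum.inr j ∈ W c ∧ (Sum.inr w : V ⊕ Fin a) ∈ g j) := by
      ext k
      simp only [mem_filter, mem_univ, true_and]
      tauto
    rw [h2]
    exact h1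

end Pool.Agent.H469R10.CX
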